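import Pool.Agent.H87.SH.Targets

/-! Board hlf, row REG (MP_2697e3_an): the scale function of a continuous density. -/

namespace Pool.Agent.H12.SH

open MeasureTheory Metric Set Filter Topology Pool.Agent.H87.SN Pool.Agent.H87.SH
open scoped ContDiff RealInnerProductSpace ENNReal

noncomputable section

/-- the admissible scales -/
def Sc {n : ℕ} (e : E n → ℝ) (x : E n) : Set ℝ :=
  {r | 0 ≤ r ∧ r ≤ 1 / 8 ∧ ∀ y ∈ ball x r, r ^ 2 * e y ≤ 1}

theorem pf_REG : T_REG := by
  intro n e hc he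
  have hbdd : ∀ x, BddAbove (Sc e x) := fun x => ⟨1 / 8, fun r hr => hr.2.1⟩
  have h0 : ∀ x, (0 : ℝ) ∈ Sc e x := by
    intro x
    refine ⟨le_rfl, by norm_num, fun y hy => ?_⟩
    simp at hy
  have hdown : ∀ x r s, r ∈ Sc e x → 0 ≤ s → s ≤ r → s ∈ Sc e x := by
    intro x r s hr hs hsr
    refine ⟨hs, hsr.trans hr.2.1, fun y hy => ?_⟩
    have h1 := hr.2.2 y (ball_subset_ball hsr hy)
    have h2 : s ^ 2 ≤ r ^ 2 := by nlinarith
    nlinarith [he y]
  have hR0 : ∀ x, 0 ≤ sSup (Sc e x) := fun x => le_csSup (hbdd x) (h0 x)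
  have hR1 : ∀ x, sSup (Sc e x) ≤ 1 / 8 := fun x => csSup_le ⟨0, h0 x⟩ fun r hr => hr.2.1
  have hmem : ∀ x, sSup (Sc e x) ∈ Sc e x := by
    intro x
    refine ⟨hR0 x, hR1 x, fun y hy => ?_⟩
    rw [mem_ball] at hy
    have ht : Tendsto (fun r : ℝ => r ^ 2 * e y) (𝓝[<] (sSup (Sc e x)))
        (𝓝 ((sSup (Sc e x)) ^ 2 * e y)) := by
      have : Continuous (fun r : ℝ => r ^ 2 * e y) := by fun_prop
      exact this.continuousAt.tendsto.mono_left nhdsWithin_le_nhds
    refine le_of_tendsto ht ?_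
    filter_upwards [Ioo_mem_nhdsLT hy] with r hr
    obtain ⟨r', hr', hlt⟩ := exists_lt_of_lt_csSup ⟨0, h0 x⟩ hr.2
    have hrS : r ∈ Sc e x := hdown x r' r hr' (dist_nonneg.trans hr.1.le) hlt.le
    exact hrS.2.2 y (mem_ball.2 hr.1)
  refine ⟨fun x => sSup (Sc e x), ?_, fun x => ⟨hR0 x, hR1 x⟩, ?_, fun x y hy => (hmem x).2.2 y hy,
    ?_⟩
  · refine LipschitzWith.of_le_add fun x x' => ?_
    rcases le_total (sSup (Sc e x)) (dist x x') with h | h
    · linarith [hR0 x']
    · have h1 : sSup (Sc e x) - dist x x' ∈ Sc e x' := by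
        refine ⟨by linarith, by linarith [hR1 x, dist_nonneg (x := x) (y := x')], fun y hy => ?_⟩
        have h2 : y ∈ ball x (sSup (Sc e x)) := by
          rw [mem_ball] at hy ⊢
          have := dist_triangle y x' x
          rw [dist_comm x' x] at this
          linarith
        have h3 := (hmem x).2.2 y h2
        have h4 : (sSup (Sc e x) - dist x x') ^ 2 ≤ (sSup (Sc e x)) ^ 2 := by
          nlinarith [dist_nonneg (x := x) (y := x')]
        nlinarith [he y]
      have h2 := le_csSup (hbdd x') h1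
      linarith
  · intro x hx
    have hca : ContinuousAt e x := hc.continuousAt (isOpen_ball.mem_nhds hx)
    have hev : ∀ᶠ y in 𝓝 x, e y < e x + 1 := hca.eventually_lt_const (by linarith)
    obtain ⟨δ, hδ, hδ'⟩ := Metric.eventually_nhds_iff_ball.1 hev
    have hex : 0 < e x + 1 := by linarith [he x]
    set r := min (min δ (1 / 8)) (1 / (e x + 1)) with hr
    have hr0 : 0 < r := lt_min (lt_min hδ (by norm_num)) (by positivity)
    have hr1 : r ≤ δ := (min_le_left _ _).trans (min_le_left _ _)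
    have hr2 : r ≤ 1 / 8 := (min_le_left _ _).trans (min_le_right _ _)
    have hr3 : r * (e x + 1) ≤ 1 := by
      have : r ≤ 1 / (e x + 1) := min_le_right _ _
      rwa [le_div_iff₀ hex] at this
    have hrS : r ∈ Sc e x := by
      refine ⟨hr0.le, hr2, fun y hy => ?_⟩
      have h1 := hδ' y (ball_subset_ball hr1 hy)
      have h2 : r ^ 2 * e y ≤ r ^ 2 * (e x + 1) :=
        mul_le_mul_of_nonneg_left h1.le (by positivity)
      nlinarith
    exact lt_of_lt_of_le hr0 (le_csSup (hbdd x) hrS)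
  · intro x r hlt hr
    by_contra hcon
    push Not at hcon
    have h1 : r ∈ Sc e x := ⟨(hR0 x).trans hlt.le, hr, hcon⟩
    exact absurd (le_csSup (hbdd x) h1) (not_le.2 hlt)

end

end Pool.Agent.H12.SH
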